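import Pool.Agent.H565R2.LO2.Sub

set_option autoImplicit false

/-!
The dichotomy for two-variable logic over linear orders.
-/

namespace Pool.Agent.H565R2.LO2

open FirstOrder Set Topology MeasureTheory Pool.Agent.H565R2.FO2

variable {L : FirstOrder.Language.{0, 0}}

/-- Codes of ordered models. -/
def KK (Φ : F2 L) (R0 : L.Relations 2) (P : Set (L.Relations 2)) : Set (Code L) :=
  {c | toI c ∈ Md Φ ∧ Or R0 P (toI c)}

/-- Perfectly many members. -/
def PerfK (K : Set (Code L)) : Prop :=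
  ∃ f : (ℕ → Bool) → Code L, Continuous f ∧ (∀ x, f x ∈ K) ∧
    ∀ x x', Iso (f x) (f x') → x = x'

theorem perfK_of_inv [∀ n, Countable (L.Relations n)] {K : Set (Code L)}
    {Y Z ι : Type} [MeasurableSpace Y] [StandardBorelSpace Y]
    (incl : Y → Code L) (hincl : Measurable incl) (hY : ∀ y, incl y ∈ K)
    [TopologicalSpace Z] [T2Space Z] [SecondCountableTopology Z] [MeasurableSpace Z] [BorelSpace Z]
    [Countable ι] (J : ι → Y → Z) (hJ : ∀ i, Measurable (J i))
    (hE : ∀ y y', Iso (incl y) (incl y') → ∀ i, ∃ j, J i y = J j y')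
    (hunc : ¬ (⋃ i, Set.range (J i)).Countable) : PerfK K := by
  obtain ⟨h, h1, h2⟩ := perfect_of_uncountable incl hincl J hJ
    (fun y y' => Iso (incl y) (incl y')) hE hunc
  refine ⟨incl ∘ h, h1, fun x => hY _, fun x x' hi => ?_⟩
  by_contra hne
  exact h2 x x' hne hi

theorem meas_rho (R : L.Relations 2) (u w : ℕ) :
    Measurable (fun c : Code L => rho (toI c) R u w) := meas_toI R _

theorem meas_SPO (R : L.Relations 2) :
    Measurable (fun c : Code L => SPO (rho (toI c) R)) := by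
  unfold SPO
  refine (Measurable.forall fun u => (meas_rho R u u).not).and ?_
  refine Measurable.forall fun u => Measurable.forall fun v => Measurable.forall fun w => ?_
  exact (meas_rho R u v).imp ((meas_rho R v w).imp (meas_rho R u w))

theorem meas_KK [∀ n, Countable (L.Relations n)] (Φ : F2 L) (R0 : L.Relations 2)
    (P : Set (L.Relations 2)) : MeasurableSet (KK Φ R0 P) := by
  apply measurableSet_setOfPred.2
  refine (measurableSet_setOfPred.1 (meas_Md Φ)).and ?_
  unfold Or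
  refine (meas_SPO R0).and (Measurable.and ?_ ?_)
  · refine Measurable.forall fun u => Measurable.forall fun w => ?_
    exact measurable_const.imp ((meas_rho R0 u w).or (meas_rho R0 w u))
  · exact Measurable.forall fun R => Measurable.forall fun _ => meas_SPO R

theorem meas_Q (R : L.Relations 2) (p : ℕ × ℕ) (n : ℕ) :
    Measurable (fun c : Code L => Q (rho (toI c) R) p n) := by
  unfold Q
  refine Measurable.exists fun y => ((meas_rho R _ _).and (meas_rho R _ _)).and ?_
  refine Measurable.exists fun s => measurable_const.and ?_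
  refine Measurable.forall fun w => measurable_const.iff ?_
  refine ((meas_rho R _ _).and (meas_rho R _ _)).and ?_
  refine Measurable.exists fun t => Measurable.forall fun z => ?_
  unfold Btw
  exact ((((meas_rho R _ _).and (meas_rho R _ _)).or
    ((meas_rho R _ _).and (meas_rho R _ _)))).imp measurable_const

open Classical in
noncomputable def QI (R : L.Relations 2) (p : ℕ × ℕ) (c : Code L) : ℕ → Bool :=
  fun n => decide (Q (rho (toI c) R) p n)

theorem meas_QI (R : L.Relations 2) (p : ℕ × ℕ) : Measurable (fun c : Code L => QI R p c) := by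
  rw [measurable_pi_iff]
  intro n
  apply measurable_to_bool
  have : (fun c : Code L => QI R p c n) ⁻¹' {true} = {c | Q (rho (toI c) R) p n} := by
    ext c; simp [QI]
  rw [this]
  exact measurableSet_setOfPred.2 (meas_Q R p n)

theorem rho_iso {c c' : Code L} (g : ℕ ≃ ℕ)
    (hg : ∀ n (R : L.Relations n) (t : Fin n → ℕ), c ⟨n, R, t⟩ = c' ⟨n, R, fun k => g (t k)⟩)
    (R : L.Relations 2) (u w : ℕ) : rho (toI c) R u w ↔ rho (toI c') R (g u) (g w) := by
  unfold rho toI
  rw [hg]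
  have : (fun k => g ((![u, w] : Fin 2 → ℕ) k)) = ![g u, g w] := by
    funext k; fin_cases k <;> rfl
  rw [this]

theorem Q_mono {r r' : ℕ → ℕ → Prop} (g : ℕ ≃ ℕ) (h : ∀ u w, r u w ↔ r' (g u) (g w))
    (p : ℕ × ℕ) (n : ℕ) (hQ : Q r p n) : Q r' (g p.1, g p.2) n := by
  obtain ⟨y, hy, s, hs, hw⟩ := hQ
  refine ⟨g y, by rwa [← h, ← h], s.map g.toEmbedding, by rw [Finset.card_map, hs], fun w => ?_⟩
  obtain ⟨w, rfl⟩ := g.surjective w
  rw [Finset.mem_map_equiv, Equiv.symm_apply_apply, hw]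
  simp only [← h]
  refine and_congr Iff.rfl ?_
  constructor
  · rintro ⟨t, ht⟩
    refine ⟨t.map g.toEmbedding, fun z hz => ?_⟩
    obtain ⟨z, rfl⟩ := g.surjective z
    rw [Finset.mem_map_equiv, Equiv.symm_apply_apply]
    apply ht
    unfold Btw at hz ⊢
    simpa only [← h] using hz
  · rintro ⟨t, ht⟩
    refine ⟨t.map g.symm.toEmbedding, fun z hz => ?_⟩
    rw [Finset.mem_map_equiv, Equiv.symm_symm]
    apply ht
    unfold Btw at hz ⊢
    simpa only [← h] using hz

theorem iso_symm {c c' : Code L} (h : Iso c c') : Iso c' c := by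
  obtain ⟨g, hg⟩ := h
  refine ⟨g.symm, fun n R t => ?_⟩
  rw [hg]
  simp

theorem QI_iso {c c' : Code L} (g : ℕ ≃ ℕ)
    (hg : ∀ n (R : L.Relations n) (t : Fin n → ℕ), c ⟨n, R, t⟩ = c' ⟨n, R, fun k => g (t k)⟩)
    (R : L.Relations 2) (p : ℕ × ℕ) : QI R p c = QI R (g p.1, g p.2) c' := by
  funext n
  unfold QI
  congr 1
  apply propext
  constructor
  · exact Q_mono g (rho_iso g hg R) p n
  · intro h
    have h2 := Q_mono g.symm (r := rho (toI c') R) (r' := rho (toI c) R)
      (fun u w => by rw [rho_iso g hg]; simp) (g p.1, g p.2) n h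
    simpa using h2

/-- Two elements with the same data give perfectly many models. -/
theorem perf_of_cf [∀ n, Countable (L.Relations n)] {Φ : F2 L} {R0 : L.Relations 2}
    {P : Set (L.Relations 2)} (C : Cf Φ R0 P) : PerfK (KK Φ R0 P) := by
  classical
  refine perfK_of_inv (K := KK Φ R0 P) (Y := ℕ → Bool) (Z := ℕ → Bool) (ι := ℕ × ℕ)
    (fun x => ofI (C.Mo x)) C.cont_incl.measurable ?_
    (fun p x => QI R0 p (ofI (C.Mo x))) ?_ ?_ ?_
  · intro x
    refine ⟨?_, ?_⟩
    · rw [toI_ofI]; exact C.Mo_mem x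
    · rw [toI_ofI]; exact C.Mo_or x
  · intro p
    exact (meas_QI R0 p).comp C.cont_incl.measurable
  · rintro y y' ⟨g, hg⟩ p
    exact ⟨(g p.1, g p.2), QI_iso g hg R0 p⟩
  · intro hc
    have h1 : (Set.univ : Set (ℕ → Bool)).Countable := by
      refine hc.mono ?_
      intro x _
      refine mem_iUnion.2 ⟨(Cf.p0, 2 * C.a), x, ?_⟩
      funext k
      simp only [QI]
      rw [Bool.eq_iff_iff, decide_eq_true_iff, toI_ofI]
      exact C.Q_iff x k
    exact Cfg.cantor_unc h1

/-- Data realised in ordered models. -/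
def AK (Φ : F2 L) (R0 : L.Relations 2) (P : Set (L.Relations 2)) : Set (Dat L) :=
  {d | ∃ c ∈ KK Φ R0 P, ∃ x y, d = dat (toI c) (subs Φ) x y}

theorem ak_al {Φ : F2 L} {R0 : L.Relations 2} {P : Set (L.Relations 2)} :
    AK Φ R0 P ⊆ Al Φ := by
  rintro d ⟨c, hc, x, y, rfl⟩
  exact al_dat hc.1 x y

theorem ak_countable [∀ n, Countable (L.Relations n)] {Φ : F2 L} {R0 : L.Relations 2}
    {P : Set (L.Relations 2)} (h : ¬ PerfK (KK Φ R0 P)) : (AK Φ R0 P).Countable := by
  have := (meas_KK Φ R0 P).standardBorel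
  by_contra hc
  apply h
  refine perfK_of_inv (K := KK Φ R0 P) (Y := ↥(KK Φ R0 P)) (Z := KI Φ → Bool) (ι := ℕ × ℕ)
    (fun y => y.1) measurable_subtype_coe (fun y => y.2)
    (fun p y => code Φ (dat (toI y.1) (subs Φ) p.1 p.2)) ?_ ?_ ?_
  · intro p
    exact (meas_code Φ p.1 p.2).comp measurable_subtype_coe
  · rintro y y' ⟨g, hg⟩ p
    exact ⟨(g p.1, g p.2), by simp only [dat_iso g hg]⟩
  · intro hc2
    apply hc
    refine Set.MapsTo.countable_of_injOn (f := code Φ) ?_
      (fun d hd d' hd' h => code_inj (ak_al hd) (ak_al hd') h) hc2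
    rintro d ⟨c, hcK, x, y, rfl⟩
    exact mem_iUnion.2 ⟨(x, y), ⟨c, hcK⟩, rfl⟩

open Classical in
/-- The set of data of a model. -/
noncomputable def Dg (Φ : F2 L) (R0 : L.Relations 2) (P : Set (L.Relations 2))
    (c : Code L) : ↥(AK Φ R0 P) → Bool := fun d =>
  decide (∃ x y, dat (toI c) (subs Φ) x y = d)

theorem meas_dat_eqK [∀ n, Countable (L.Relations n)] {Φ : F2 L} {R0 : L.Relations 2}
    {P : Set (L.Relations 2)} (x y : ℕ) (d : ↥(AK Φ R0 P)) :
    Measurable (fun k : ↥(KK Φ R0 P) => dat (toI k.1) (subs Φ) x y = d) := by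
  apply measurableSet_setOfPred.1
  have : {k : ↥(KK Φ R0 P) | dat (toI k.1) (subs Φ) x y = d} =
      (fun k : ↥(KK Φ R0 P) => code Φ (dat (toI k.1) (subs Φ) x y)) ⁻¹' {code Φ d} := by
    ext k
    simp only [mem_ofPred_eq, mem_preimage, mem_singleton_iff]
    exact ⟨fun h => by rw [h], fun h => code_inj (al_dat k.2.1 x y) (ak_al d.2) h⟩
  rw [this]
  exact ((meas_code Φ x y).comp measurable_subtype_coe) (measurableSet_singleton _)

theorem meas_Dg [∀ n, Countable (L.Relations n)] {Φ : F2 L} {R0 : L.Relations 2}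
    {P : Set (L.Relations 2)} (hA : (AK Φ R0 P).Countable) :
    Measurable (fun k : ↥(KK Φ R0 P) => Dg Φ R0 P k.1) := by
  have := hA.to_subtype
  rw [measurable_pi_iff]
  intro d
  apply measurable_to_bool
  have : (fun k : ↥(KK Φ R0 P) => Dg Φ R0 P k.1 d) ⁻¹' {true} =
      {k : ↥(KK Φ R0 P) | ∃ x y, dat (toI k.1) (subs Φ) x y = d} := by
    ext k; simp [Dg]
  rw [this]
  apply measurableSet_setOfPred.2
  exact Measurable.exists fun x => Measurable.exists fun y => meas_dat_eqK x y d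

theorem Dg_iso {c c' : Code L} (h : Iso c c') (Φ : F2 L) (R0 : L.Relations 2)
    (P : Set (L.Relations 2)) : Dg Φ R0 P c = Dg Φ R0 P c' := by
  obtain ⟨g, hg⟩ := h
  funext d
  unfold Dg
  congr 1
  apply propext
  constructor
  · rintro ⟨x, y, h⟩
    exact ⟨g x, g y, by rw [← dat_iso g hg]; exact h⟩
  · rintro ⟨x, y, h⟩
    refine ⟨g.symm x, g.symm y, ?_⟩
    rw [dat_iso g hg, Equiv.apply_symm_apply, Equiv.apply_symm_apply]
    exact h

theorem dg_countable [∀ n, Countable (L.Relations n)] {Φ : F2 L} {R0 : L.Relations 2}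
    {P : Set (L.Relations 2)} (h : ¬ PerfK (KK Φ R0 P)) :
    (Set.range (fun k : ↥(KK Φ R0 P) => Dg Φ R0 P k.1)).Countable := by
  have hA := ak_countable h
  have := hA.to_subtype
  have := (meas_KK Φ R0 P).standardBorel
  by_contra hc
  apply h
  refine perfK_of_inv (K := KK Φ R0 P) (Y := ↥(KK Φ R0 P)) (Z := ↥(AK Φ R0 P) → Bool)
    (ι := Unit) (fun y => y.1) measurable_subtype_coe (fun y => y.2)
    (fun _ y => Dg Φ R0 P y.1) ?_ ?_ ?_
  · intro _
    exact meas_Dg hA
  · rintro y y' h x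
    exact ⟨(), Dg_iso h Φ R0 P⟩
  · intro hc2
    apply hc
    refine hc2.mono ?_
    rintro z ⟨k, rfl⟩
    exact mem_iUnion.2 ⟨(), k, rfl⟩

theorem iso_of_dg {Φ : F2 L} {R0 : L.Relations 2} {P : Set (L.Relations 2)}
    (hinj : ∀ c ∈ KK Φ R0 P, ∀ a b, dat (toI c) (subs Φ) a a = dat (toI c) (subs Φ) b b → a = b)
    (h2 : ∀ n, 2 < n → IsEmpty (L.Relations n))
    {c c' : Code L} (hc : c ∈ KK Φ R0 P) (hc' : c' ∈ KK Φ R0 P)
    (h : Dg Φ R0 P c = Dg Φ R0 P c') : Iso c c' := by
  classical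
  have hD : ∀ c1 c2 : Code L, c1 ∈ KK Φ R0 P → Dg Φ R0 P c1 = Dg Φ R0 P c2 →
      ∀ x y, ∃ x' y', dat (toI c2) (subs Φ) x' y' = dat (toI c1) (subs Φ) x y := by
    intro c1 c2 h1 h2 x y
    have h3 : Dg Φ R0 P c1 ⟨_, c1, h1, x, y, rfl⟩ = true := by
      unfold Dg
      rw [decide_eq_true_iff]
      exact ⟨x, y, rfl⟩
    rw [h2] at h3
    unfold Dg at h3
    rw [decide_eq_true_iff] at h3
    exact h3
  have hdiag : ∀ c1 c2 : Code L, c1 ∈ KK Φ R0 P → Dg Φ R0 P c1 = Dg Φ R0 P c2 →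
      ∀ x, ∃ x', dat (toI c2) (subs Φ) x' x' = dat (toI c1) (subs Φ) x x := by
    intro c1 c2 h1 h2 x
    obtain ⟨x', y', hxy⟩ := hD c1 c2 h1 h2 x x
    have he : x' = y' := by
      have : (dat (toI c2) (subs Φ) x' y').e := by rw [hxy]; exact rfl
      exact this
    subst he
    exact ⟨x', hxy⟩
  choose f hf using hdiag c c' hc h
  choose f' hf' using hdiag c' c hc' h.symm
  have hff' : ∀ x, f' (f x) = x := fun x => hinj c hc _ _ (by rw [hf', hf])
  have hf'f : ∀ x, f (f' x) = x := fun x => hinj c' hc' _ _ (by rw [hf, hf'])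
  let g : ℕ ≃ ℕ := ⟨f, f', hff', hf'f⟩
  have hall : ∀ x y, dat (toI c') (subs Φ) (g x) (g y) = dat (toI c) (subs Φ) x y := by
    intro x y
    obtain ⟨x', y', hxy⟩ := hD c c' hc h x y
    have e1 : x' = g x := by
      apply hinj c' hc'
      have h3 := congrArg (fun d => Dat.map d (fun _ => false)) hxy
      simp only [dat_map, pick_false] at h3
      rw [h3]
      exact (hf x).symm
    have e2 : y' = g y := by
      apply hinj c' hc'
      have h3 := congrArg (fun d => Dat.map d (fun _ => true)) hxy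
      simp only [dat_map, pick_true] at h3
      rw [h3]
      exact (hf y).symm
    rw [← e1, ← e2]
    exact hxy
  refine ⟨g, fun n R t => ?_⟩
  have hrep : ∃ (x y : ℕ) (v : Fin n → Bool), t = fun k => pick x y (v k) := by
    rcases Nat.lt_or_ge 2 n with hn | hn
    · exact (h2 n hn).elim R
    · interval_cases n
      · exact ⟨0, 0, fun _ => false, Subsingleton.elim _ _⟩
      · refine ⟨t 0, t 0, fun _ => false, ?_⟩
        funext k
        rw [Subsingleton.elim k 0]; rfl
      · refine ⟨t 0, t 1, ![false, true], ?_⟩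
        funext k
        fin_cases k <;> rfl
  obtain ⟨x, y, v, rfl⟩ := hrep
  have h3 : (dat (toI c') (subs Φ) (g x) (g y)).a n R v ↔ (dat (toI c) (subs Φ) x y).a n R v := by
    rw [hall]
  have h4 : (fun k => g (pick x y (v k))) = fun k => pick (g x) (g y) (v k) := by
    funext k; cases v k <;> rfl
  rw [h4]
  have h5 : (c' ⟨n, R, fun k => pick (g x) (g y) (v k)⟩ = true) ↔
      (c ⟨n, R, fun k => pick x y (v k)⟩ = true) := h3
  rw [Bool.eq_iff_iff]
  exact h5.symm

/-- Elements with the same data. -/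
theorem perf_or_inj [∀ n, Countable (L.Relations n)] (Φ : F2 L) (R0 : L.Relations 2)
    (P : Set (L.Relations 2)) : PerfK (KK Φ R0 P) ∨
      ∀ c ∈ KK Φ R0 P, ∀ a b, dat (toI c) (subs Φ) a a = dat (toI c) (subs Φ) b b → a = b := by
  by_cases h : ∀ c ∈ KK Φ R0 P, ∀ a b,
      dat (toI c) (subs Φ) a a = dat (toI c) (subs Φ) b b → a = b
  · exact Or.inr h
  · left
    push Not at h
    obtain ⟨c, hc, a, b, hd, hne⟩ := h
    rcases hc.2.2.1 a b hne with h1 | h1
    · exact perf_of_cf ⟨toI c, hc.1, hc.2, a, b, h1, hd⟩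
    · exact perf_of_cf ⟨toI c, hc.1, hc.2, b, a, h1, hd.symm⟩

theorem perf_of_ternaryK {Φ : F2 L} {R0 : L.Relations 2}
    {P : Set (L.Relations 2)} {n : ℕ} (hn : 2 < n) (R : L.Relations n) {c0 : Code L}
    (hc0 : c0 ∈ KK Φ R0 P) : PerfK (KK Φ R0 P) := by
  classical
  have hrho : ∀ (x : ℕ → Bool) (R' : L.Relations 2), rho (toI (cx c0 x)) R' = rho (toI c0) R' := by
    intro x R'
    funext u w
    unfold rho toI cx
    rw [if_pos ⟨u, w, ![false, true], vec_pick u w⟩]
  refine ⟨cx c0, cx_cont c0, fun x => ⟨cx_mem hc0.1 x, ?_⟩, ?_⟩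
  · refine ⟨?_, ?_, fun R' hR' => ?_⟩
    · rw [hrho]; exact hc0.2.1
    · rw [hrho]; exact hc0.2.2.1
    · rw [hrho]; exact hc0.2.2.2 R' hR'
  have key : ∀ x x' : ℕ → Bool, Iso (cx c0 x) (cx c0 x') → ∀ u, x u = true → x' u = true := by
    rintro x x' ⟨g, hg⟩ u hu
    have h1 : In3 (cx c0 x) R (2 * u + 2) := by
      rw [In3_cx c0 x hn R]
      exact ⟨u, by rw [hu]; rfl⟩
    have h2 := In3_iso g hg R _ h1
    rw [In3_cx c0 x' hn R] at h2
    obtain ⟨u', hu'⟩ := h2
    cases hx : x' u'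
    · rw [hx] at hu'
      simp only [Bool.toNat_false] at hu'
      omega
    · rw [hx] at hu'
      simp only [Bool.toNat_true] at hu'
      have : u = u' := by omega
      rw [this]; exact hx
  intro x x' h
  funext u
  rw [Bool.eq_iff_iff]
  exact ⟨key x x' h u, key x' x (iso_symm h) u⟩

/-- The dichotomy. -/
theorem main [∀ n, Countable (L.Relations n)] (Φ : F2 L) (R0 : L.Relations 2)
    (P : Set (L.Relations 2)) :
    (∃ g : ℕ → Code L, ∀ c ∈ KK Φ R0 P, ∃ n, Iso c (g n)) ∨ PerfK (KK Φ R0 P) := by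
  by_cases hP : PerfK (KK Φ R0 P)
  · exact Or.inr hP
  left
  by_cases hne : Nonempty ↥(KK Φ R0 P)
  · have h2 : ∀ n, 2 < n → IsEmpty (L.Relations n) := by
      intro n hn
      refine ⟨fun R => ?_⟩
      exact hP (perf_of_ternaryK hn R hne.some.2)
    have hinj := (perf_or_inj Φ R0 P).resolve_left hP
    obtain ⟨f, hf⟩ := (dg_countable hP).exists_eq_range (Set.range_nonempty _)
    have hg : ∀ n, ∃ k : ↥(KK Φ R0 P), Dg Φ R0 P k.1 = f n := by
      intro n
      have : f n ∈ Set.range (fun k : ↥(KK Φ R0 P) => Dg Φ R0 P k.1) := by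
        rw [hf]; exact ⟨n, rfl⟩
      exact this
    choose k hk using hg
    refine ⟨fun n => (k n).1, fun c hc => ?_⟩
    have : Dg Φ R0 P c ∈ Set.range f := by
      rw [← hf]; exact ⟨⟨c, hc⟩, rfl⟩
    obtain ⟨n, hn⟩ := this
    refine ⟨n, iso_of_dg hinj h2 hc (k n).2 ?_⟩
    rw [hk, hn]
  · exact ⟨fun _ => fun _ => false, fun c hc => absurd ⟨⟨c, hc⟩⟩ hne⟩

end Pool.Agent.H565R2.LO2
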