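import Mathlib

set_option autoImplicit false

/-!
A family of countable linear orders coding arbitrary sets of natural numbers.
-/

namespace Pool.Agent.H565R2.LO2

open Set

/-- The dense part of the orders. -/
abbrev D1 : Type := {q : ℚ // q = -1 ∨ ∃ n : ℕ, (2 * n : ℚ) < q ∧ q < 2 * n + 1}

/-- The underlying set of the orders. -/
abbrev DD : Type := D1 ⊕ (Σ n : ℕ, Fin (n + 2))

/-- The least element. -/
def c0 : DD := .inl ⟨-1, Or.inl rfl⟩

/-- The position of an element. -/
noncomputable def key (x : ℕ → Bool) : DD → ℝ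
  | .inl q => ((q.1 : ℚ) : ℝ)
  | .inr ⟨n, k⟩ => if x n then 2 * n + 1 + (k.val : ℝ) / (n + 2)
      else 2 * n + ((k.val : ℝ) + 1) / (n + 3) * (Real.sqrt 2 / 2)

theorem key_true {x : ℕ → Bool} {n : ℕ} (h : x n = true) (k : Fin (n + 2)) :
    key x (.inr ⟨n, k⟩) = 2 * n + 1 + (k.val : ℝ) / (n + 2) := by
  simp [key, h]

theorem key_false {x : ℕ → Bool} {n : ℕ} (h : x n = false) (k : Fin (n + 2)) :
    key x (.inr ⟨n, k⟩) = 2 * n + ((k.val : ℝ) + 1) / (n + 3) * (Real.sqrt 2 / 2) := by
  simp [key, h]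

theorem sq_bd : 0 < Real.sqrt 2 / 2 ∧ Real.sqrt 2 / 2 < 1 := by
  constructor
  · positivity
  · have : Real.sqrt 2 < 2 := by
      rw [Real.sqrt_lt' (by norm_num)]; norm_num
    linarith

theorem key_true_bd {x : ℕ → Bool} {n : ℕ} (h : x n = true) (k : Fin (n + 2)) :
    2 * (n : ℝ) + 1 ≤ key x (.inr ⟨n, k⟩) ∧ key x (.inr ⟨n, k⟩) < 2 * n + 2 := by
  rw [key_true h]
  have hk : (k.val : ℝ) < n + 2 := by exact_mod_cast k.isLt
  have h1 : (k.val : ℝ) / (n + 2) < 1 := by
    rw [div_lt_one (by positivity)]; exact hk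
  have h2 : 0 ≤ (k.val : ℝ) / (n + 2) := by positivity
  constructor <;> linarith

theorem key_false_bd {x : ℕ → Bool} {n : ℕ} (h : x n = false) (k : Fin (n + 2)) :
    2 * (n : ℝ) < key x (.inr ⟨n, k⟩) ∧ key x (.inr ⟨n, k⟩) < 2 * n + 1 := by
  rw [key_false h]
  have hk : (k.val : ℝ) + 1 < n + 3 := by
    have : (k.val : ℝ) < n + 2 := by exact_mod_cast k.isLt
    linarith
  have h1 : ((k.val : ℝ) + 1) / (n + 3) < 1 := by
    rw [div_lt_one (by positivity)]; exact hk
  have h2 : 0 < ((k.val : ℝ) + 1) / (n + 3) := by positivity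
  obtain ⟨s1, s2⟩ := sq_bd
  have h3 : 0 < ((k.val : ℝ) + 1) / (n + 3) * (Real.sqrt 2 / 2) := mul_pos h2 s1
  have h4 : ((k.val : ℝ) + 1) / (n + 3) * (Real.sqrt 2 / 2) < 1 := by nlinarith
  constructor <;> linarith

theorem key_false_irr {x : ℕ → Bool} {n : ℕ} (h : x n = false) (k : Fin (n + 2)) :
    Irrational (key x (.inr ⟨n, k⟩)) := by
  rw [key_false h]
  have h1 : Irrational (Real.sqrt 2 * (((k.val + 1 : ℕ) / ((n + 3 : ℕ) * 2 : ℚ) : ℚ) : ℝ)) := by
    apply irrational_sqrt_two.mul_ratCast
    positivity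
  have h2 := h1.ratCast_add (2 * n : ℚ)
  have h3 : (((2 * n : ℚ) : ℝ) + Real.sqrt 2 * (((k.val + 1 : ℕ) / ((n + 3 : ℕ) * 2 : ℚ) : ℚ) : ℝ))
      = 2 * (n : ℝ) + ((k.val : ℝ) + 1) / (n + 3) * (Real.sqrt 2 / 2) := by
    push_cast
    field_simp
  rw [← h3]
  exact h2

/-- rational elements lie in the dense bands -/
theorem q_bd (q : D1) : ((q.1 : ℚ) : ℝ) = -1 ∨
    ∃ n : ℕ, 2 * (n : ℝ) < ((q.1 : ℚ) : ℝ) ∧ ((q.1 : ℚ) : ℝ) < 2 * n + 1 := by
  rcases q.2 with h | ⟨n, h1, h2⟩
  · left; rw [h]; norm_num
  · right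
    refine ⟨n, ?_, ?_⟩
    · exact_mod_cast h1
    · exact_mod_cast h2

theorem nat_band {n m : ℕ} {r : ℝ} (h1 : 2 * (n : ℝ) ≤ r) (h2 : r < 2 * n + 2)
    (h3 : 2 * (m : ℝ) ≤ r) (h4 : r < 2 * m + 2) : n = m := by
  have a : (n : ℝ) < m + 1 := by linarith
  have b : (m : ℝ) < n + 1 := by linarith
  have a' : n < m + 1 := by exact_mod_cast a
  have b' : m < n + 1 := by exact_mod_cast b
  omega

theorem key_band (x : ℕ → Bool) (n : ℕ) (k : Fin (n + 2)) :
    2 * (n : ℝ) ≤ key x (.inr ⟨n, k⟩) ∧ key x (.inr ⟨n, k⟩) < 2 * n + 2 := by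
  cases h : x n
  · have := key_false_bd h k
    constructor <;> linarith [this.1, this.2]
  · have := key_true_bd h k
    constructor <;> linarith [this.1, this.2]

/-- an element with position in an upper band is a finite block element -/
theorem upper_band {x : ℕ → Bool} {d : DD} {n : ℕ} (h1 : 2 * (n : ℝ) + 1 ≤ key x d)
    (h2 : key x d < 2 * n + 2) : x n = true ∧ ∃ k : Fin (n + 2), d = .inr ⟨n, k⟩ := by
  rcases d with q | ⟨m, k⟩
  · exfalso
    have hk : key x (.inl q) = ((q.1 : ℚ) : ℝ) := rfl
    rw [hk] at h1 h2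
    rcases q_bd q with h | ⟨m, h3, h4⟩
    · rw [h] at h1
      have : (0 : ℝ) ≤ n := Nat.cast_nonneg n
      linarith
    · have := nat_band (n := n) (m := m) (by linarith) h2 (by linarith) (by linarith)
      subst this
      linarith
  · have hb := key_band x m k
    have := nat_band (n := n) (m := m) (by linarith) h2 hb.1 hb.2
    subst this
    cases h : x n
    · have := key_false_bd h k
      linarith [this.2]
    · exact ⟨rfl, k, rfl⟩

theorem key_inj (x : ℕ → Bool) : Function.Injective (key x) := by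
  have key2 : ∀ (q : D1) (n : ℕ) (k : Fin (n + 2)), key x (.inl q) ≠ key x (.inr ⟨n, k⟩) := by
    intro q n k h
    have hk : key x (.inl q) = ((q.1 : ℚ) : ℝ) := rfl
    cases hx : x n
    · have h1 := key_false_irr hx k
      rw [← h, hk] at h1
      exact h1 ⟨q.1, rfl⟩
    · have h1 := key_true_bd hx k
      rw [← h] at h1
      obtain ⟨-, k', hk'⟩ := upper_band h1.1 h1.2
      exact absurd hk' (by simp)
  rintro (q | ⟨n, k⟩) (q' | ⟨n', k'⟩) h
  · have h1 : ((q.1 : ℚ) : ℝ) = ((q'.1 : ℚ) : ℝ) := h
    have h2 : q.1 = q'.1 := by exact_mod_cast h1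
    rw [Subtype.ext h2]
  · exact absurd h (key2 _ _ _)
  · exact absurd h.symm (key2 _ _ _)
  · have hb := key_band x n k
    have hb' := key_band x n' k'
    rw [← h] at hb'
    have := nat_band hb.1 hb.2 hb'.1 hb'.2
    subst this
    have hkk : k = k' := by
      cases hx : x n
      · rw [key_false hx, key_false hx] at h
        have h1 : ((k.val : ℝ) + 1) / (n + 3) * (Real.sqrt 2 / 2) =
            ((k'.val : ℝ) + 1) / (n + 3) * (Real.sqrt 2 / 2) := by linarith
        have h2 := mul_right_cancel₀ (ne_of_gt sq_bd.1) h1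
        rw [div_left_inj' (by positivity)] at h2
        have h3 : (k.val : ℝ) = k'.val := by linarith
        exact Fin.ext (by exact_mod_cast h3)
      · rw [key_true hx, key_true hx] at h
        have h2 : (k.val : ℝ) / (n + 2) = (k'.val : ℝ) / (n + 2) := by linarith
        rw [div_left_inj' (by positivity)] at h2
        exact Fin.ext (by exact_mod_cast h2)
    rw [hkk]

theorem key_c0 (x : ℕ → Bool) : key x c0 = -1 := by
  simp [key, c0]

theorem key_pos (x : ℕ → Bool) {d : DD} (hd : d ≠ c0) : -1 < key x d ∧ 0 < key x d + 1/2 := by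
  rcases d with q | ⟨n, k⟩
  · have hk : key x (.inl q) = ((q.1 : ℚ) : ℝ) := rfl
    rw [hk]
    rcases q.2 with h | ⟨n, h1, h2⟩
    · exfalso
      apply hd
      unfold c0
      congr 1
      exact Subtype.ext h
    · have : 2 * (n : ℝ) < ((q.1 : ℚ) : ℝ) := by exact_mod_cast h1
      have h0 : (0 : ℝ) ≤ n := Nat.cast_nonneg n
      constructor <;> linarith
  · have hb := key_band x n k
    have h0 : (0 : ℝ) ≤ n := Nat.cast_nonneg n
    constructor <;> linarith [hb.1]

/-- an element below another one, not in the same finite block: infinitely many in between -/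
theorem inf_between (x : ℕ → Bool) {d w : DD} (h : key x d < key x w)
    (hn : ¬ ∃ n, x n = true ∧ (∃ k, d = .inr ⟨n, k⟩) ∧ (∃ k, w = .inr ⟨n, k⟩)) :
    ({z : DD | key x d < key x z ∧ key x z < key x w}).Infinite := by
  -- find an interval in a dense band
  have hI : ∃ (m : ℕ) (α β : ℝ), α < β ∧ key x d ≤ α ∧ β ≤ key x w ∧ 2 * (m : ℝ) ≤ α ∧
      β ≤ 2 * m + 1 := by
    by_cases hd : d = c0
    · have hw : w ≠ c0 := by
        rintro rfl
        rw [hd] at h
        exact lt_irrefl _ h
      refine ⟨0, 0, min (key x w) 1, ?_, ?_, min_le_left _ _, by simp, by simp⟩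
      · rcases w with q | ⟨n, k⟩
        · have hk : key x (.inl q) = ((q.1 : ℚ) : ℝ) := rfl
          rcases q.2 with h1 | ⟨n, h1, h2⟩
          · exfalso
            apply hw
            unfold c0
            congr 1
            exact Subtype.ext h1
          · have : 2 * (n : ℝ) < ((q.1 : ℚ) : ℝ) := by exact_mod_cast h1
            have h0 : (0 : ℝ) ≤ n := Nat.cast_nonneg n
            rw [hk]
            exact lt_min (by linarith) (by norm_num)
        · have h0 : (0 : ℝ) ≤ n := Nat.cast_nonneg n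
          cases hx : x n
          · have := key_false_bd hx k
            exact lt_min (by linarith [this.1]) (by norm_num)
          · have := key_true_bd hx k
            exact lt_min (by linarith [this.1]) (by norm_num)
      · rw [hd, key_c0]; norm_num
    · -- d lies in a dense band or in an upper band
      have hcase : (∃ m : ℕ, 2 * (m : ℝ) < key x d ∧ key x d < 2 * m + 1) ∨
          (∃ n : ℕ, 2 * (n : ℝ) + 1 ≤ key x d ∧ key x d < 2 * n + 2) := by
        rcases d with q | ⟨n, k⟩
        · left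
          rcases q.2 with h1 | ⟨n, h1, h2⟩
          · exfalso
            apply hd
            unfold c0
            congr 1
            exact Subtype.ext h1
          · exact ⟨n, by
              have : 2 * (n : ℝ) < ((q.1 : ℚ) : ℝ) := by exact_mod_cast h1
              exact this, by
              have : ((q.1 : ℚ) : ℝ) < 2 * (n : ℝ) + 1 := by exact_mod_cast h2
              exact this⟩
        · cases hx : x n
          · left; exact ⟨n, key_false_bd hx k⟩
          · right; exact ⟨n, key_true_bd hx k⟩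
      rcases hcase with ⟨m, h1, h2⟩ | ⟨n, h1, h2⟩
      · exact ⟨m, key x d, min (key x w) (2 * m + 1), lt_min h h2, le_refl _, min_le_left _ _,
          h1.le, min_le_right _ _⟩
      · by_cases hw : key x w < 2 * n + 2
        · exfalso
          apply hn
          obtain ⟨hx, hd'⟩ := upper_band h1 h2
          obtain ⟨-, hw'⟩ := upper_band (by linarith : 2 * (n : ℝ) + 1 ≤ key x w) hw
          exact ⟨n, hx, hd', hw'⟩
        · push Not at hw
          have hne : key x w ≠ 2 * n + 2 := by
            intro he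
            rcases w with q | ⟨m, k⟩
            · rcases q_bd q with h3 | ⟨m, h3, h4⟩
              · have : key x (.inl q) = ((q.1 : ℚ) : ℝ) := rfl
                rw [this, h3] at he
                have : (0 : ℝ) ≤ n := Nat.cast_nonneg n
                linarith
              · have : key x (.inl q) = ((q.1 : ℚ) : ℝ) := rfl
                rw [this] at he
                rw [he] at h3 h4
                have a : (m : ℝ) < n + 1 := by linarith
                have b : (n : ℝ) + 1 < m + 1 := by linarith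
                have a' : m < n + 1 := by exact_mod_cast a
                have b' : n + 1 < m + 1 := by exact_mod_cast b
                omega
            · have hb := key_band x m k
              cases hx : x m
              · have h3 := key_false_bd hx k
                rw [he] at h3
                have a : (m : ℝ) < n + 1 := by linarith [h3.1]
                have b : (n : ℝ) + 1 < m + 1 := by linarith [h3.2]
                have a' : m < n + 1 := by exact_mod_cast a
                have b' : n + 1 < m + 1 := by exact_mod_cast b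
                omega
              · have h3 := key_true_bd hx k
                rw [he] at h3
                have a : (m : ℝ) < n + 1 := by linarith [h3.1]
                have b : (n : ℝ) < m := by linarith [h3.2]
                have a' : m < n + 1 := by exact_mod_cast a
                have b' : n < m := by exact_mod_cast b
                omega
          have hw2 : (2 : ℝ) * n + 2 < key x w := lt_of_le_of_ne hw (Ne.symm hne)
          refine ⟨n + 1, 2 * n + 2, min (key x w) (2 * n + 3), lt_min hw2 (by linarith),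
            by linarith, min_le_left _ _, ?_, ?_⟩
          · push_cast; linarith
          · push_cast
            refine (min_le_right _ _).trans ?_
            linarith
  obtain ⟨m, α, β, hab, h1, h2, h3, h4⟩ := hI
  obtain ⟨q1, hq1, hq1'⟩ := exists_rat_btwn hab
  obtain ⟨q2, hq2, hq2'⟩ := exists_rat_btwn hq1'
  have hq12 : q1 < q2 := by exact_mod_cast hq2
  have hinf : (Set.Ioo q1 q2).Infinite := Set.Ioo_infinite hq12
  have hmem : ∀ q ∈ Set.Ioo q1 q2, (q = -1 ∨ ∃ n : ℕ, (2 * n : ℚ) < q ∧ q < 2 * n + 1) := by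
    intro q hq
    right
    refine ⟨m, ?_, ?_⟩
    · have : (2 * (m : ℝ)) < (q : ℝ) := by
        have : (q1 : ℝ) < (q : ℝ) := by exact_mod_cast hq.1
        linarith
      exact_mod_cast this
    · have : (q : ℝ) < 2 * (m : ℝ) + 1 := by
        have : (q : ℝ) < (q2 : ℝ) := by exact_mod_cast hq.2
        linarith
      exact_mod_cast this
  have hinf2 : Infinite (Set.Ioo q1 q2) := Set.infinite_coe_iff.2 hinf
  refine Set.infinite_of_injective_forall_mem (α := Set.Ioo q1 q2)
    (f := fun q => (.inl ⟨q.1, hmem q.1 q.2⟩ : DD)) ?_ ?_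
  · intro q q' h
    have h5 := Sum.inl.inj h
    have h6 := congrArg Subtype.val h5
    exact Subtype.ext h6
  · intro q
    have e : key x (.inl ⟨q.1, hmem q.1 q.2⟩) = ((q.1 : ℚ) : ℝ) := rfl
    simp only [Set.mem_ofPred_eq, e]
    have a1 : (q1 : ℝ) < (q.1 : ℝ) := by exact_mod_cast q.2.1
    have a2 : (q.1 : ℝ) < (q2 : ℝ) := by exact_mod_cast q.2.2
    constructor <;> linarith

/-- between two elements of a finite block there are finitely many elements -/
theorem fin_between (x : ℕ → Bool) {n : ℕ} (hx : x n = true) (k l : Fin (n + 2)) :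
    ({z : DD | key x (.inr ⟨n, k⟩) < key x z ∧ key x z < key x (.inr ⟨n, l⟩)}).Finite := by
  have h1 := key_true_bd hx k
  have h2 := key_true_bd hx l
  refine (Set.finite_range (fun j : Fin (n + 2) => (.inr ⟨n, j⟩ : DD))).subset ?_
  rintro z ⟨h3, h4⟩
  obtain ⟨-, j, hj⟩ := upper_band (n := n) (by linarith [h1.1] : 2 * (n : ℝ) + 1 ≤ key x z)
    (by linarith [h2.2])
  exact ⟨j, hj.symm⟩

/-- finitely many elements between `y` and `w` -/
def FB (x : ℕ → Bool) (y w : DD) : Prop :=
  ({z : DD | (key x y < key x z ∧ key x z < key x w) ∨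
    (key x w < key x z ∧ key x z < key x y)}).Finite

theorem fb_iff (x : ℕ → Bool) (y w : DD) : FB x y w ↔
    y = w ∨ ∃ n, x n = true ∧ (∃ k, y = .inr ⟨n, k⟩) ∧ (∃ k, w = .inr ⟨n, k⟩) := by
  constructor
  · intro h
    by_contra hc
    push Not at hc
    obtain ⟨h1, h2⟩ := hc
    have hne : key x y ≠ key x w := fun he => h1 (key_inj x he)
    rcases lt_or_gt_of_ne hne with h3 | h3
    · refine inf_between x h3 ?_ (h.subset fun z hz => Or.inl hz)
      rintro ⟨n, a, ⟨k, b⟩, ⟨l, c⟩⟩
      exact h2 n a ⟨k, b⟩ l c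
    · refine inf_between x h3 ?_ (h.subset fun z hz => Or.inr hz)
      rintro ⟨n, a, ⟨k, b⟩, ⟨l, c⟩⟩
      exact h2 n a ⟨l, c⟩ k b
  · rintro (rfl | ⟨n, hx, ⟨k, rfl⟩, ⟨l, rfl⟩⟩)
    · refine Set.Finite.subset Set.finite_empty ?_
      rintro z (⟨h1, h2⟩ | ⟨h1, h2⟩)
      · exact absurd (h1.trans h2) (lt_irrefl _)
      · exact absurd (h1.trans h2) (lt_irrefl _)
    · exact (fin_between x hx k l).union (fin_between x hx l k)

theorem decode (x : ℕ → Bool) (n : ℕ) :
    (∃ y, y ≠ c0 ∧ ∃ s : Finset DD, s.card = n + 2 ∧ ∀ w, w ∈ s ↔ (w ≠ c0 ∧ FB x y w)) ↔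
      x n = true := by
  constructor
  · rintro ⟨y, hy, s, hs, hw⟩
    simp only [fb_iff] at hw
    by_cases hc : ∃ m, x m = true ∧ ∃ k, y = .inr ⟨m, k⟩
    · obtain ⟨m, hm, k, rfl⟩ := hc
      have : s = Finset.univ.map ⟨fun j : Fin (m + 2) => (.inr ⟨m, j⟩ : DD), by
          intro a b h
          simpa using h⟩ := by
        ext w
        rw [hw, Finset.mem_map]
        constructor
        · rintro ⟨-, h | ⟨m', h1, ⟨k1, h2⟩, ⟨k2, h3⟩⟩⟩
          · exact ⟨k, Finset.mem_univ _, h⟩
          · have h4 := Sum.inr.inj h2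
            have h5 : m = m' := congrArg Sigma.fst h4
            subst h5
            exact ⟨k2, Finset.mem_univ _, h3.symm⟩
        · rintro ⟨j, -, rfl⟩
          exact ⟨by simp [c0], Or.inr ⟨m, hm, ⟨k, rfl⟩, ⟨j, rfl⟩⟩⟩
      rw [this, Finset.card_map, Finset.card_univ, Fintype.card_fin] at hs
      have : m = n := by omega
      rw [← this]; exact hm
    · exfalso
      have : s ⊆ {y} := by
        intro w hws
        rcases ((hw w).1 hws).2 with h | ⟨m', h1, ⟨k1, h2⟩, -⟩
        · rw [← h]; exact Finset.mem_singleton_self _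
        · exact absurd ⟨m', h1, k1, h2⟩ hc
      have := Finset.card_le_card this
      rw [Finset.card_singleton] at this
      omega
  · intro hx
    refine ⟨.inr ⟨n, 0⟩, by simp [c0], Finset.univ.map ⟨fun j : Fin (n + 2) => (.inr ⟨n, j⟩ : DD),
      by intro a b h; simpa using h⟩, by simp, fun w => ?_⟩
    rw [Finset.mem_map, fb_iff]
    constructor
    · rintro ⟨j, -, rfl⟩
      exact ⟨by simp [c0], Or.inr ⟨n, hx, ⟨0, rfl⟩, ⟨j, rfl⟩⟩⟩
    · rintro ⟨-, h | ⟨m', h1, ⟨k1, h2⟩, ⟨k2, h3⟩⟩⟩
      · exact ⟨0, Finset.mem_univ _, h⟩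
      · have h4 := Sum.inr.inj h2
        have h5 : n = m' := congrArg Sigma.fst h4
        subst h5
        exact ⟨k2, Finset.mem_univ _, h3.symm⟩

instance : Countable DD := inferInstance

instance : Infinite DD := by
  refine Infinite.of_injective (fun n : ℕ => (.inr ⟨n, 0⟩ : DD)) ?_
  intro a b h
  have h4 := Sum.inr.inj h
  exact congrArg Sigma.fst h4

/-- an enumeration of the elements -/
noncomputable def en : ℕ ≃ DD :=
  (Classical.choice (nonempty_denumerable DD)).eqv.symm

theorem key_dep (d : DD) : ∃ (F : Bool → ℝ) (n : ℕ), ∀ x, key x d = F (x n) := by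
  rcases d with q | ⟨n, k⟩
  · exact ⟨fun _ => ((q.1 : ℚ) : ℝ), 0, fun x => rfl⟩
  · exact ⟨fun b => if b then 2 * n + 1 + (k.val : ℝ) / (n + 2)
      else 2 * n + ((k.val : ℝ) + 1) / (n + 3) * (Real.sqrt 2 / 2), n, fun x => rfl⟩

end Pool.Agent.H565R2.LO2
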