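import Pool.Agent.H565R2.FO2.Fin
import Pool.Agent.H565R2.LO2.Key

set_option autoImplicit false

/-!
Substituting a linear order for an element.
-/

namespace Pool.Agent.H565R2.LO2

open FirstOrder Set Topology MeasureTheory Pool.Agent.H565R2.FO2

variable {L : FirstOrder.Language.{0, 0}}

/-- the pair relation -/
def rho (I : Interp L ℕ) (R : L.Relations 2) (u w : ℕ) : Prop := I 2 R ![u, w]

/-- strict partial orders -/
def SPO (r : ℕ → ℕ → Prop) : Prop := (∀ u, ¬ r u u) ∧ ∀ u v w, r u v → r v w → r u w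

/-- order conditions -/
def Or (R0 : L.Relations 2) (P : Set (L.Relations 2)) (I : Interp L ℕ) : Prop :=
  SPO (rho I R0) ∧ (∀ u w, u ≠ w → rho I R0 u w ∨ rho I R0 w u) ∧ ∀ R ∈ P, SPO (rho I R)

theorem vec_pick (u w : ℕ) : (![u, w] : Fin 2 → ℕ) = fun k => pick u w (![false, true] k) := by
  funext k; fin_cases k <;> rfl

theorem rho_dat (I : Interp L ℕ) (J : Set (F2 L)) (R : L.Relations 2) (u w : ℕ) :
    rho I R u w ↔ (dat I J u w).a 2 R ![false, true] := by
  unfold rho
  rw [vec_pick]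
  exact Iff.rfl

/-- A configuration: two elements of a model with the same data. -/
structure Cf (Φ : F2 L) (R0 : L.Relations 2) (P : Set (L.Relations 2)) where
  I : Interp L ℕ
  hI : I ∈ Md Φ
  hO : Or R0 P I
  a : ℕ
  b : ℕ
  hab : rho I R0 a b
  hd : dat I (subs Φ) a a = dat I (subs Φ) b b

namespace Cf

variable {Φ : F2 L} {R0 : L.Relations 2} {P : Set (L.Relations 2)} (C : Cf Φ R0 P)

/-- projection to the old model -/
def pr (u : ℕ) : ℕ := if u % 2 = 0 then u / 2 else C.a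

theorem pr_2 (z : ℕ) : C.pr (2 * z) = z := by
  unfold pr
  rw [if_pos (by omega)]
  omega

theorem pr_odd (z : ℕ) : C.pr (2 * z + 1) = C.a := by
  unfold pr
  rw [if_neg (by omega)]

theorem pr_inj {u w : ℕ} (h : C.pr u = C.pr w) (ha : C.pr u ≠ C.a) : u = w := by
  unfold pr at h ha
  split_ifs at h ha <;> omega

/-- the order on the block -/
def rb (x : ℕ → Bool) (u w : ℕ) : Prop :=
  u % 2 = 1 ∧ (w % 2 = 0 ∨ key x (en (u / 2)) < key x (en (w / 2)))

open Classical in
/-- data of the extended model -/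
noncomputable def dl (x : ℕ → Bool) (u w : ℕ) : Dat L :=
  if u = w then dat C.I (subs Φ) (C.pr u) (C.pr u)
  else if C.pr u = C.a ∧ C.pr w = C.a then
    (if rb x u w then dat C.I (subs Φ) C.a C.b else dat C.I (subs Φ) C.b C.a)
  else dat C.I (subs Φ) (C.pr u) (C.pr w)

theorem rb_asym (x : ℕ → Bool) {u w : ℕ} (h : rb x u w) : ¬ rb x w u := by
  rintro ⟨h1, h2⟩
  obtain ⟨h3, h4⟩ := h
  rcases h2 with h2 | h2
  · omega
  · rcases h4 with h4 | h4
    · omega
    · exact lt_asymm h2 h4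

theorem rb_tot (x : ℕ → Bool) {u w : ℕ} (hne : u ≠ w) (hu : C.pr u = C.a) (hw : C.pr w = C.a) :
    rb x u w ∨ rb x w u := by
  rcases Nat.mod_two_eq_zero_or_one u with h1 | h1
  · rcases Nat.mod_two_eq_zero_or_one w with h2 | h2
    · exfalso
      unfold pr at hu hw
      rw [if_pos h1] at hu
      rw [if_pos h2] at hw
      omega
    · exact Or.inr ⟨h2, Or.inl h1⟩
  · rcases Nat.mod_two_eq_zero_or_one w with h2 | h2
    · exact Or.inl ⟨h1, Or.inl h2⟩
    · have hne2 : key x (en (u / 2)) ≠ key x (en (w / 2)) := by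
        intro h
        have := en.injective (key_inj x h)
        omega
      rcases lt_or_gt_of_ne hne2 with h | h
      · exact Or.inl ⟨h1, Or.inr h⟩
      · exact Or.inr ⟨h2, Or.inr h⟩

theorem rb_trans (x : ℕ → Bool) {u v w : ℕ} (h1 : rb x u v) (h2 : rb x v w) : rb x u w := by
  obtain ⟨a1, a2⟩ := h1
  obtain ⟨b1, b2⟩ := h2
  refine ⟨a1, ?_⟩
  rcases b2 with b2 | b2
  · exact Or.inl b2
  · rcases a2 with a2 | a2
    · omega
    · exact Or.inr (a2.trans b2)

theorem dl_coh (x : ℕ → Bool) : Coh (C.dl x) := by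
  classical
  have hba : dat C.I (subs Φ) C.b C.b = dat C.I (subs Φ) C.a C.a := C.hd.symm
  refine ⟨?_, ?_⟩
  · intro u w σ
    rcases bool_fun_cases σ with h2 | h2 | h2 | h2
    · subst h2
      simp only [pick_false]
      unfold dl
      rw [if_pos rfl]
      split_ifs with h3 h4 h5
      · subst h3; rw [dat_map]; rfl
      · rw [dat_map, h4.1]; rfl
      · rw [dat_map, h4.1]; exact hba.symm
      · rw [dat_map]; rfl
    · subst h2
      simp only [pick_true]
      unfold dl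
      rw [if_pos rfl]
      split_ifs with h3 h4 h5
      · subst h3; rw [dat_map]; rfl
      · rw [dat_map, h4.2]; exact hba.symm
      · rw [dat_map, h4.2]; rfl
      · rw [dat_map]; rfl
    · subst h2
      simp only [id, pick_false, pick_true]
      exact (Dat.map_id _).symm
    · subst h2
      simp only [Bool.not_false, Bool.not_true, pick_false, pick_true]
      unfold dl
      by_cases h3 : u = w
      · subst h3
        rw [if_pos rfl, dat_map]; rfl
      · rw [if_neg h3, if_neg (Ne.symm h3)]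
        by_cases h4 : C.pr u = C.a ∧ C.pr w = C.a
        · rw [if_pos h4, if_pos h4.symm]
          rcases C.rb_tot x h3 h4.1 h4.2 with h5 | h5
          · rw [if_pos h5, if_neg (rb_asym x h5), dat_map]; rfl
          · rw [if_pos h5, if_neg (rb_asym x h5), dat_map]; rfl
        · rw [if_neg h4, if_neg (fun h => h4 h.symm), dat_map]; rfl
  · intro u w
    unfold dl
    split_ifs with h3 h4 h5
    · exact ⟨fun _ => h3, fun _ => rfl⟩
    · have : C.a ≠ C.b := by
        intro h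
        have := C.hab
        rw [← h] at this
        exact C.hO.1.1 _ this
      exact ⟨fun h => absurd h this, fun h => absurd h h3⟩
    · have : C.b ≠ C.a := by
        intro h
        have := C.hab
        rw [h] at this
        exact C.hO.1.1 _ this
      exact ⟨fun h => absurd h this, fun h => absurd h h3⟩
    · have : C.pr u ≠ C.pr w := by
        intro h
        by_cases h6 : C.pr u = C.a
        · exact h4 ⟨h6, by rw [← h]; exact h6⟩
        · exact h3 (C.pr_inj h h6)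
      exact ⟨fun h => absurd h this, fun h => absurd h h3⟩

/-- the extended model -/
noncomputable def Mo (x : ℕ → Bool) : Interp L ℕ := mkI (C.dl x)

theorem dl_al (x : ℕ → Bool) (u w : ℕ) : C.dl x u w ∈ Al Φ := by
  unfold dl
  split_ifs
  · exact al_dat C.hI _ _
  · exact al_dat C.hI _ _
  · exact al_dat C.hI _ _
  · exact al_dat C.hI _ _

theorem dl_see (x : ℕ → Bool) (u z : ℕ) : ∃ w, C.dl x u w = dat C.I (subs Φ) (C.pr u) z ∧
    C.dl x w u = dat C.I (subs Φ) z (C.pr u) := by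
  by_cases h : z = C.pr u
  · refine ⟨u, ?_, ?_⟩
    · unfold dl; rw [if_pos rfl, h]
    · unfold dl; rw [if_pos rfl, h]
  · have h1 : u ≠ 2 * z := by
      rintro rfl
      exact h (C.pr_2 z).symm
    have h2 : ¬ (C.pr u = C.a ∧ C.pr (2 * z) = C.a) := by
      rintro ⟨h3, h4⟩
      rw [C.pr_2] at h4
      exact h (by rw [h3, h4])
    refine ⟨2 * z, ?_, ?_⟩
    · unfold dl; rw [if_neg h1, if_neg h2, C.pr_2]
    · unfold dl; rw [if_neg (Ne.symm h1), if_neg (fun h => h2 h.symm), C.pr_2]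

theorem Mo_mem (x : ℕ → Bool) : C.Mo x ∈ Md Φ := by
  have hdiag : ∀ u, C.dl x u u = dat C.I (subs Φ) (C.pr u) (C.pr u) := by
    intro u; unfold dl; rw [if_pos rfl]
  have hlb : ∀ u, (C.dl x u u).l false = lab C.I (subs Φ) (C.pr u) := by
    intro u
    rw [hdiag]; rfl
  have hc := criterion Φ (C.Mo x) (fun u => (C.dl x u u).l false) ?_ ?_
  · exact hc.2
  · intro u w
    rw [Mo, mkd_mkI (C.dl_coh x)]
    exact C.dl_al x u w
  · intro u c ψ h
    rw [Mo]
    simp only [mkd_mkI (C.dl_coh x)]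
    rw [hlb] at h
    obtain ⟨hψ, h⟩ := h
    have hs : subs ψ ⊆ subs Φ := subs_trans hψ
    cases c
    · obtain ⟨z, hz⟩ := h
      obtain ⟨w, -, h2⟩ := C.dl_see x u z
      refine ⟨w, ?_⟩
      simp only [cond_false]
      rw [h2, ev_dat _ _ _ hs]
      exact hz
    · obtain ⟨z, hz⟩ := h
      obtain ⟨w, h2, -⟩ := C.dl_see x u z
      refine ⟨w, ?_⟩
      simp only [cond_true]
      rw [h2, ev_dat _ _ _ hs]
      exact hz

theorem Mo_rho (x : ℕ → Bool) (R : L.Relations 2) (u w : ℕ) :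
    rho (C.Mo x) R u w ↔
      (if u = w then rho C.I R (C.pr u) (C.pr u)
      else if C.pr u = C.a ∧ C.pr w = C.a then
        ((rb x u w ∧ rho C.I R C.a C.b) ∨ (rb x w u ∧ rho C.I R C.b C.a))
      else rho C.I R (C.pr u) (C.pr w)) := by
  classical
  have h : rho (C.Mo x) R u w ↔ (C.dl x u w).a 2 R ![false, true] := by
    unfold rho
    rw [vec_pick]
    exact mkI_iff (C.dl_coh x) R u w _
  rw [h]
  unfold dl
  split_ifs with h3 h4 h5
  · exact (rho_dat _ _ _ _ _).symm
  · rw [← rho_dat]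
    constructor
    · intro h; exact Or.inl ⟨h5, h⟩
    · rintro (⟨-, h⟩ | ⟨h6, -⟩)
      · exact h
      · exact absurd h6 (rb_asym x h5)
  · rw [← rho_dat]
    constructor
    · intro h
      exact Or.inr ⟨(C.rb_tot x h3 h4.1 h4.2).resolve_left h5, h⟩
    · rintro (⟨h6, -⟩ | ⟨-, h⟩)
      · exact absurd h6 h5
      · exact h
  · exact (rho_dat _ _ _ _ _).symm

theorem spo {R : L.Relations 2} (h : SPO (rho C.I R)) (x : ℕ → Bool) : SPO (rho (C.Mo x) R) := by
  obtain ⟨hi, ht⟩ := h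
  have has : ∀ u v, rho C.I R u v → ¬ rho C.I R v u := fun u v h1 h2 => hi u (ht _ _ _ h1 h2)
  have hirr : ∀ u, ¬ rho (C.Mo x) R u u := by
    intro u
    rw [C.Mo_rho, if_pos rfl]
    exact hi _
  have hne : ∀ u v, rho (C.Mo x) R u v → u ≠ v := by
    rintro u v h rfl
    exact hirr u h
  refine ⟨hirr, ?_⟩
  intro u v w h1 h2
  have n1 := hne _ _ h1
  have n2 := hne _ _ h2
  rw [C.Mo_rho, if_neg n1] at h1
  rw [C.Mo_rho, if_neg n2] at h2
  by_cases n3 : u = w
  · exfalso
    subst n3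
    by_cases ha : C.pr u = C.a ∧ C.pr v = C.a
    · rw [if_pos ha] at h1
      rw [if_pos ha.symm] at h2
      rcases h1 with ⟨a1, a2⟩ | ⟨a1, a2⟩
      · rcases h2 with ⟨b1, b2⟩ | ⟨b1, b2⟩
        · exact rb_asym x a1 b1
        · exact has _ _ a2 b2
      · rcases h2 with ⟨b1, b2⟩ | ⟨b1, b2⟩
        · exact has _ _ a2 b2
        · exact rb_asym x a1 b1
    · rw [if_neg ha] at h1
      rw [if_neg (fun h => ha h.symm)] at h2
      exact has _ _ h1 h2
  · rw [C.Mo_rho, if_neg n3]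
    by_cases ha1 : C.pr u = C.a ∧ C.pr v = C.a
    · rw [if_pos ha1] at h1
      by_cases ha2 : C.pr w = C.a
      · rw [if_pos ⟨ha1.2, ha2⟩] at h2
        rw [if_pos ⟨ha1.1, ha2⟩]
        rcases h1 with ⟨a1, a2⟩ | ⟨a1, a2⟩
        · rcases h2 with ⟨b1, b2⟩ | ⟨b1, b2⟩
          · exact Or.inl ⟨rb_trans x a1 b1, a2⟩
          · exact absurd b2 (has _ _ a2)
        · rcases h2 with ⟨b1, b2⟩ | ⟨b1, b2⟩
          · exact absurd b2 (has _ _ a2)
          · exact Or.inr ⟨rb_trans x b1 a1, a2⟩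
      · rw [if_neg (fun h => ha2 h.2)] at h2
        rw [if_neg (fun h => ha2 h.2), ha1.1]
        rw [ha1.2] at h2
        exact h2
    · rw [if_neg ha1] at h1
      by_cases ha2 : C.pr v = C.a ∧ C.pr w = C.a
      · have ha3 : C.pr u ≠ C.a := fun h => ha1 ⟨h, ha2.1⟩
        rw [if_neg (fun h => ha3 h.1), ha2.2]
        rw [ha2.1] at h1
        exact h1
      · rw [if_neg ha2] at h2
        by_cases ha3 : C.pr u = C.a ∧ C.pr w = C.a
        · exfalso
          rw [ha3.1] at h1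
          rw [ha3.2] at h2
          exact has _ _ h1 h2
        · rw [if_neg ha3]
          exact ht _ _ _ h1 h2

theorem Mo_or (x : ℕ → Bool) : Or R0 P (C.Mo x) := by
  refine ⟨C.spo C.hO.1 x, ?_, fun R hR => C.spo (C.hO.2.2 R hR) x⟩
  intro u w hne
  rw [C.Mo_rho, C.Mo_rho, if_neg hne, if_neg (Ne.symm hne)]
  by_cases ha : C.pr u = C.a ∧ C.pr w = C.a
  · rw [if_pos ha, if_pos ha.symm]
    rcases C.rb_tot x hne ha.1 ha.2 with h | h
    · exact Or.inl (Or.inl ⟨h, C.hab⟩)
    · exact Or.inr (Or.inl ⟨h, C.hab⟩)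
  · rw [if_neg ha, if_neg (fun h => ha h.symm)]
    apply C.hO.2.1
    intro h
    by_cases h6 : C.pr u = C.a
    · exact ha ⟨h6, by rw [← h]; exact h6⟩
    · exact hne (C.pr_inj h h6)

/-- index of the least new element -/
noncomputable def p0 : ℕ := 2 * en.symm c0 + 1

theorem itv (x : ℕ → Bool) (z : ℕ) :
    (rho (C.Mo x) R0 p0 z ∧ rho (C.Mo x) R0 z (2 * C.a)) ↔ ∃ i, z = 2 * i + 1 ∧ en i ≠ c0 := by
  have hp : C.pr p0 = C.a := C.pr_odd _
  have ha2 : C.pr (2 * C.a) = C.a := C.pr_2 _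
  have has : ∀ u v, rho C.I R0 u v → ¬ rho C.I R0 v u :=
    fun u v h1 h2 => C.hO.1.1 u (C.hO.1.2 _ _ _ h1 h2)
  constructor
  · rintro ⟨h1, h2⟩
    have n1 : p0 ≠ z := by
      rintro rfl
      exact (C.spo C.hO.1 x).1 _ h1
    have n2 : z ≠ 2 * C.a := by
      rintro rfl
      exact (C.spo C.hO.1 x).1 _ h2
    rw [C.Mo_rho, if_neg n1] at h1
    rw [C.Mo_rho, if_neg n2] at h2
    rcases Nat.mod_two_eq_zero_or_one z with h | h
    · exfalso
      have hz : C.pr z ≠ C.a := by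
        unfold pr
        rw [if_pos h]
        omega
      rw [if_neg (fun h => hz h.2), hp] at h1
      rw [if_neg (fun h => hz h.1), ha2] at h2
      exact has _ _ h1 h2
    · refine ⟨z / 2, by omega, ?_⟩
      intro he
      apply n1
      have : z / 2 = en.symm c0 := by rw [← he, Equiv.symm_apply_apply]
      unfold p0
      omega
  · rintro ⟨i, rfl, hi⟩
    have hz : C.pr (2 * i + 1) = C.a := C.pr_odd i
    have n1 : p0 ≠ 2 * i + 1 := by
      intro h
      unfold p0 at h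
      have : en.symm c0 = i := by omega
      apply hi
      rw [← this, Equiv.apply_symm_apply]
    rw [C.Mo_rho, if_neg n1, if_pos ⟨hp, hz⟩, C.Mo_rho, if_neg (by omega), if_pos ⟨hz, ha2⟩]
    refine ⟨Or.inl ⟨⟨by unfold p0; omega, Or.inr ?_⟩, C.hab⟩,
      Or.inl ⟨⟨by omega, Or.inl (by omega)⟩, C.hab⟩⟩
    have e1 : p0 / 2 = en.symm c0 := by unfold p0; omega
    have e2 : (2 * i + 1) / 2 = i := by omega
    rw [e1, e2, Equiv.apply_symm_apply, key_c0]
    exact (key_pos x hi).1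

theorem odd_rho (x : ℕ → Bool) (i j : ℕ) :
    rho (C.Mo x) R0 (2 * i + 1) (2 * j + 1) ↔ key x (en i) < key x (en j) := by
  rw [C.Mo_rho]
  by_cases h : i = j
  · subst h
    rw [if_pos rfl]
    exact ⟨fun h => absurd h (C.hO.1.1 _), fun h => absurd h (lt_irrefl _)⟩
  · rw [if_neg (by omega), if_pos ⟨C.pr_odd i, C.pr_odd j⟩]
    have hnb : ¬ rho C.I R0 C.b C.a := fun h2 => C.hO.1.1 _ (C.hO.1.2 _ _ _ C.hab h2)
    constructor
    · rintro (⟨⟨-, h1⟩, -⟩ | ⟨-, h2⟩)
      · rcases h1 with h1 | h1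
        · omega
        · rw [show (2 * i + 1) / 2 = i by omega, show (2 * j + 1) / 2 = j by omega] at h1
          exact h1
      · exact absurd h2 hnb
    · intro h1
      refine Or.inl ⟨⟨by omega, Or.inr ?_⟩, C.hab⟩
      rw [show (2 * i + 1) / 2 = i by omega, show (2 * j + 1) / 2 = j by omega]
      exact h1

end Cf

/-- between -/
def Btw (r : ℕ → ℕ → Prop) (y z w : ℕ) : Prop := (r y z ∧ r z w) ∨ (r w z ∧ r z y)

/-- the coding predicate -/
def Q (r : ℕ → ℕ → Prop) (p : ℕ × ℕ) (n : ℕ) : Prop :=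
  ∃ y, (r p.1 y ∧ r y p.2) ∧ ∃ s : Finset ℕ, s.card = n + 2 ∧
    ∀ w, w ∈ s ↔ ((r p.1 w ∧ r w p.2) ∧ ∃ t : Finset ℕ, ∀ z, Btw r y z w → z ∈ t)

namespace Cf

variable {Φ : F2 L} {R0 : L.Relations 2} {P : Set (L.Relations 2)} (C : Cf Φ R0 P)

theorem fb_iff' (x : ℕ → Bool) (i j : ℕ) (hi : en i ≠ c0) (hj : en j ≠ c0) :
    (∃ t : Finset ℕ, ∀ z, Btw (rho (C.Mo x) R0) (2 * i + 1) z (2 * j + 1) → z ∈ t) ↔
      FB x (en i) (en j) := by
  have hz : ∀ z, Btw (rho (C.Mo x) R0) (2 * i + 1) z (2 * j + 1) → ∃ k, z = 2 * k + 1 := by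
    intro z h
    have htr := (C.spo C.hO.1 x).2
    have hi2 := (C.itv x (2 * i + 1)).2 ⟨i, rfl, hi⟩
    have hj2 := (C.itv x (2 * j + 1)).2 ⟨j, rfl, hj⟩
    have : rho (C.Mo x) R0 p0 z ∧ rho (C.Mo x) R0 z (2 * C.a) := by
      rcases h with ⟨h1, h2⟩ | ⟨h1, h2⟩
      · exact ⟨htr _ _ _ hi2.1 h1, htr _ _ _ h2 hj2.2⟩
      · exact ⟨htr _ _ _ hj2.1 h1, htr _ _ _ h2 hi2.2⟩
    obtain ⟨k, hk, -⟩ := (C.itv x z).1 this
    exact ⟨k, hk⟩
  have hB : ∀ k, Btw (rho (C.Mo x) R0) (2 * i + 1) (2 * k + 1) (2 * j + 1) ↔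
      ((key x (en i) < key x (en k) ∧ key x (en k) < key x (en j)) ∨
      (key x (en j) < key x (en k) ∧ key x (en k) < key x (en i))) := by
    intro k
    unfold Btw
    simp only [C.odd_rho]
  constructor
  · rintro ⟨t, ht⟩
    unfold FB
    refine (t.finite_toSet.image (fun z => en (z / 2))).subset ?_
    intro d hd
    refine ⟨2 * en.symm d + 1, ?_, ?_⟩
    · apply ht
      rw [hB, Equiv.apply_symm_apply]
      exact hd
    · simp only
      rw [show (2 * en.symm d + 1) / 2 = en.symm d by omega, Equiv.apply_symm_apply]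
  · intro h
    unfold FB at h
    have h2 := h.image (fun d => 2 * en.symm d + 1)
    refine ⟨h2.toFinset, fun z hzz => ?_⟩
    obtain ⟨k, rfl⟩ := hz z hzz
    rw [Set.Finite.mem_toFinset]
    refine ⟨en k, (hB k).1 hzz, ?_⟩
    simp only [Equiv.symm_apply_apply]

theorem Q_iff (x : ℕ → Bool) (n : ℕ) :
    Q (rho (C.Mo x) R0) (p0, 2 * C.a) n ↔ x n = true := by
  rw [← decode x n]
  unfold Q
  simp only [C.itv]
  constructor
  · rintro ⟨y, ⟨i, rfl, hi⟩, s, hs, hw⟩
    refine ⟨en i, hi, s.image (fun z => en (z / 2)), ?_, ?_⟩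
    · rw [Finset.card_image_of_injOn, hs]
      intro u hu w hw' h
      obtain ⟨⟨k, rfl, -⟩, -⟩ := (hw u).1 hu
      obtain ⟨⟨l, rfl, -⟩, -⟩ := (hw w).1 hw'
      have := en.injective h
      omega
    · intro d
      rw [Finset.mem_image]
      constructor
      · rintro ⟨z, hz, rfl⟩
        obtain ⟨⟨k, rfl, hk⟩, h2⟩ := (hw z).1 hz
        rw [show (2 * k + 1) / 2 = k by omega]
        exact ⟨hk, (C.fb_iff' x i k hi hk).1 h2⟩
      · rintro ⟨hd, h2⟩
        refine ⟨2 * en.symm d + 1, ?_, ?_⟩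
        · rw [hw]
          refine ⟨⟨en.symm d, rfl, by rw [Equiv.apply_symm_apply]; exact hd⟩, ?_⟩
          rw [C.fb_iff' x i _ hi (by rw [Equiv.apply_symm_apply]; exact hd),
            Equiv.apply_symm_apply]
          exact h2
        · rw [show (2 * en.symm d + 1) / 2 = en.symm d by omega, Equiv.apply_symm_apply]
  · rintro ⟨y, hy, s, hs, hw⟩
    refine ⟨2 * en.symm y + 1, ⟨en.symm y, rfl, by rw [Equiv.apply_symm_apply]; exact hy⟩,
      s.image (fun d => 2 * en.symm d + 1), ?_, ?_⟩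
    · rw [Finset.card_image_of_injective, hs]
      intro u w h
      simp only at h
      exact en.symm.injective (by omega)
    · intro z
      rw [Finset.mem_image]
      constructor
      · rintro ⟨d, hd, rfl⟩
        obtain ⟨h1, h2⟩ := (hw d).1 hd
        refine ⟨⟨en.symm d, rfl, by rw [Equiv.apply_symm_apply]; exact h1⟩, ?_⟩
        rw [C.fb_iff' x _ _ (by rw [Equiv.apply_symm_apply]; exact hy)
          (by rw [Equiv.apply_symm_apply]; exact h1), Equiv.apply_symm_apply,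
          Equiv.apply_symm_apply]
        exact h2
      · rintro ⟨⟨k, rfl, hk⟩, h2⟩
        refine ⟨en k, ?_, by rw [Equiv.symm_apply_apply]⟩
        rw [hw]
        refine ⟨hk, ?_⟩
        rw [C.fb_iff' x _ _ (by rw [Equiv.apply_symm_apply]; exact hy) hk,
          Equiv.apply_symm_apply] at h2
        exact h2

theorem dl_dep (u w : ℕ) : ∃ (F : Bool → Bool → Dat L) (i j : ℕ), ∀ x, C.dl x u w = F (x i) (x j) := by
  classical
  obtain ⟨F1, n1, h1⟩ := key_dep (en (u / 2))
  obtain ⟨F2, n2, h2⟩ := key_dep (en (w / 2))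
  refine ⟨fun β γ => if u = w then dat C.I (subs Φ) (C.pr u) (C.pr u)
    else if C.pr u = C.a ∧ C.pr w = C.a then
      (if (u % 2 = 1 ∧ (w % 2 = 0 ∨ F1 β < F2 γ)) then dat C.I (subs Φ) C.a C.b
        else dat C.I (subs Φ) C.b C.a)
    else dat C.I (subs Φ) (C.pr u) (C.pr w), n1, n2, fun x => ?_⟩
  unfold dl rb
  simp only [h1, h2]

open Classical in
theorem cont_incl : Continuous (fun x : ℕ → Bool => ofI (C.Mo x)) := by
  rw [continuous_pi_iff]
  rintro ⟨n, R, t⟩
  by_cases hrep : ∃ (u w : ℕ) (v : Fin n → Bool), t = fun k => pick u w (v k)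
  · obtain ⟨u, w, v, rfl⟩ := hrep
    obtain ⟨F, i, j, hF⟩ := C.dl_dep u w
    have : (fun x : ℕ → Bool => ofI (C.Mo x) ⟨n, R, fun k => pick u w (v k)⟩) =
        (fun β : Bool × Bool => decide ((F β.1 β.2).a n R v)) ∘ fun x => (x i, x j) := by
      funext x
      simp only [ofI, Function.comp, decide_eq_decide]
      rw [Mo, mkI_iff (C.dl_coh _), hF]
    rw [this]
    exact (continuous_of_discreteTopology).comp
      ((continuous_apply i).prodMk (continuous_apply j))
  · have : (fun x : ℕ → Bool => ofI (C.Mo x) ⟨n, R, t⟩) = fun _ => false := by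
      funext x
      simp only [ofI, decide_eq_false_iff_not]
      rintro ⟨u, w, v, ht, -⟩
      exact hrep ⟨u, w, v, ht⟩
    rw [this]
    exact continuous_const

end Cf

end Pool.Agent.H565R2.LO2
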